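import Pool.Agent.H78.OX.Targets
import Pool.Agent.H70.OQ.Basic

/-! Module FWX: at every short string only few rows matter. -/

set_option autoImplicit false

namespace Pool.Agent.H33.OX

open Finset Pool.Agent.H6.NB Pool.Agent.H70.OQ Pool.Agent.H70.EH Pool.Agent.H70.PX
  Pool.Agent.H78.XQ Pool.Agent.H70.PW Pool.Agent.H78.OX

theorem fwx (hLKX : T_LKX) : T_FWX := by
  classical
  intro A hA J n a hn σ₀ O₀ O₁ h0 H κ P z h1 O hO M hM hK w hw
  have e1 := hLKX J A n (2 ^ a) σ₀ O₀ O₁ (tabT J H) κ P z hA hn h0 h1 w hw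
  have e2 := fun x => hLKX J A n (2 ^ a) σ₀ O₀ (O x) (tabU J H x) κ P z hA hn h0 (hO x) w hw
  rcases hc : clx J n (2 ^ a) O₀ w with b | (p | z') | s | ⟨s, i, v⟩
  · have : (univ.filter fun x => O x w ≠ O₁ w) = ∅ := by
      refine filter_eq_empty_iff.2 fun x _ => ?_
      rw [e1, e2 x, hc]; simp [vlG]
    rw [this]; simp
  · refine le_trans (card_le_card ?_) ((card_row J H p).trans hM)
    intro x hx
    rw [mem_filter] at hx ⊢
    refine ⟨mem_univ _, ?_⟩
    have := hx.2
    rw [e1, e2 x, hc] at this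
    exact this
  · have : (univ.filter fun x => O x w ≠ O₁ w) = ∅ := by
      refine filter_eq_empty_iff.2 fun x _ => ?_
      rw [e1, e2 x, hc]; simp [vlG]
    rw [this]; simp
  · refine le_trans (card_le_card ?_) (hK s)
    intro x hx
    rw [mem_filter] at hx ⊢
    refine ⟨mem_univ _, ?_⟩
    have := hx.2
    rw [e1, e2 x, hc] at this
    exact this
  · have : (univ.filter fun x => O x w ≠ O₁ w) = ∅ := by
      refine filter_eq_empty_iff.2 fun x _ => ?_
      rw [e1, e2 x, hc]; simp [vlG]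
    rw [this]; simp

end Pool.Agent.H33.OX
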